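import Mathlib

set_option autoImplicit false

namespace Pool.Agent.Results.MP_fd05bb_co.Counterexample

/-- A nearfield: an abelian group whose nonzero elements form a group under a right distributive
multiplication with `x * 0 = 0`. -/
class Nearfield (N : Type) extends AddCommGroup N, GroupWithZero N where
  add_mul : ∀ x y z : N, (x + y) * z = x * z + y * z

/-- The blocks `G φ` for `φ : x ↦ x * s + a` with `s ∈ S`. -/
def blocks {N : Type} [Monoid N] [Add N] (S G : Subgroup Nˣ) : Set (Set N) :=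
  {B | ∃ s ∈ S, ∃ a : N, B = (fun x : Nˣ => (x : N) * s + a) '' G}

/-- Some bijection of the points maps the first block set onto the second. -/
def Isomorphic {N K : Type} (B : Set (Set N)) (C : Set (Set K)) : Prop :=
  ∃ e : N ≃ K, (fun b => e '' b) '' B = C

abbrev V := ZMod 7 × ZMod 7 × ZMod 7

def fm (x y : V) : V :=
  (x.1 * y.1 + 2 * (x.2.1 * y.2.2 + x.2.2 * y.2.1), x.1 * y.2.1 + x.2.1 * y.1 + 2 * x.2.2 * y.2.2,
    x.1 * y.2.2 + x.2.1 * y.2.1 + x.2.2 * y.1)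

def nrm (x : V) : ZMod 7 := x.1 ^ 3 + 2 * x.2.1 ^ 3 + 4 * x.2.2 ^ 3 - 6 * x.1 * x.2.1 * x.2.2

def σ (w : ZMod 7) (x : V) : V := (x.1, x.2.1 * w, x.2.2 * w ^ 2)

def nm (x y : V) : V := fm (σ (nrm y ^ 2) x) y

def finv (x : V) : V :=
  nrm x ^ 5 • (x.1 ^ 2 - 2 * x.2.1 * x.2.2, 2 * x.2.2 ^ 2 - x.1 * x.2.1, x.2.1 ^ 2 - x.1 * x.2.2)

theorem nrm_ne : ∀ x : V, x ≠ 0 → (nrm x ^ 2) ^ 3 = 1 := by decide +kernel

theorem nrm_nm (x y : V) : nrm (nm x y) = nrm x * nrm y := by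
  rcases eq_or_ne y 0 with rfl | h
  · simp [nm, fm, nrm]
  have h1 := nrm_ne y h
  rw [nm]
  generalize nrm y ^ 2 = w at h1 ⊢
  have h2 : nrm (σ w x) = nrm x := by
    simp only [nrm, σ]
    linear_combination (2 * x.2.1 ^ 3 + 4 * x.2.2 ^ 3 * (w ^ 3 + 1) - 6 * x.1 * x.2.1 * x.2.2) * h1
  rw [← h2]
  simp only [nrm, fm]
  ring

theorem nm_assoc (x y z : V) : nm (nm x y) z = nm x (nm y z) := by
  rcases eq_or_ne z 0 with rfl | h
  · simp [nm, fm]
  have h1 := nrm_ne z h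
  change fm (σ _ (fm (σ _ x) y)) z = fm (σ (nrm (nm y z) ^ 2) x) (fm (σ _ y) z)
  rw [nrm_nm, mul_pow]
  generalize nrm z ^ 2 = w at h1 ⊢
  generalize nrm y ^ 2 = u
  have h2 : σ w (fm (σ u x) y) = fm (σ (u * w) x) (σ w y) := by
    simp only [σ, fm, Prod.mk.injEq]
    refine ⟨?_, ?_, by ring⟩
    · linear_combination (-2 * (x.2.1 * u * y.2.2 + x.2.2 * u ^ 2 * y.2.1)) * h1
    · linear_combination (-2 * x.2.2 * u ^ 2 * y.2.2 * w) * h1
  rw [h2]
  simp only [fm, Prod.mk.injEq]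
  refine ⟨?_, ?_, ?_⟩ <;> ring

def N : Type := V

instance : Fintype N := inferInstanceAs (Fintype V)
instance : DecidableEq N := inferInstanceAs (DecidableEq V)

instance : Nearfield N :=
  { (inferInstance : AddCommGroup V) with
    mul := nm
    one := (1, 0, 0)
    inv x := finv (σ (nrm x ^ 4) x)
    mul_assoc := nm_assoc
    one_mul := (by decide +kernel : ∀ x : V, nm (1, 0, 0) x = x)
    mul_one := (by decide +kernel : ∀ x : V, nm x (1, 0, 0) = x)
    zero_mul := (by decide +kernel : ∀ x : V, nm 0 x = 0)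
    mul_zero := (by decide +kernel : ∀ x : V, nm x 0 = 0)
    exists_pair_ne := (⟨0, (1, 0, 0), by decide⟩ : ∃ x y : V, x ≠ y)
    inv_zero := (by decide +kernel : finv (σ (nrm 0 ^ 4) 0) = 0)
    mul_inv_cancel :=
      (by decide +kernel : ∀ x : V, x ≠ 0 → nm x (finv (σ (nrm x ^ 4) x)) = (1, 0, 0))
    add_mul := fun x y z : V => show nm (x + y) z = nm x z + nm y z by
      simp only [nm, σ, fm, Prod.fst_add, Prod.snd_add, Prod.mk_add_mk, Prod.mk.injEq]
      refine ⟨?_, ?_, ?_⟩ <;> ring }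

def T : ℕ → V
  | 0 => (1, 0, 0)
  | n + 1 => fm (T n) (0, 1, 0)

theorem key : ∀ i j k l : Fin 9, i ≠ 0 → j ≠ 0 → k ≠ 0 → i ≠ j →
    fm (T i - T 0) (T l - T 0) = fm (T k - T 0) (T j - T 0) → i = k := by decide +kernel

theorem fm_finv : ∀ x : V, x ≠ 0 → fm x (finv x) = T 0 := by decide +kernel

theorem field_side {K : Type} [Field K] [Fintype K] (hK : Fintype.card K = 343)
    (G : Subgroup Kˣ) (hG : Nat.card G = 9) {u u' v v' : Kˣ} (hu : u ∈ G) (hu' : u' ∈ G)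
    (hv : v ∈ G) (hv' : v' ∈ G) (h1 : u ≠ 1) (h2 : u' ≠ 1) (h3 : v ≠ 1) (h4 : u ≠ u')
    (h : ((u : K) - 1) * (v' - 1) = (v - 1) * (u' - 1)) : u = v := by
  have : Fact (Nat.Prime 7) := ⟨by norm_num⟩
  have : CharP K 7 := charP_of_card_eq_prime_pow (f := 3) (by rw [hK]; norm_num)
  have h7 : (7 : K) = 0 := by exact_mod_cast CharP.cast_eq_zero K 7
  obtain ⟨θ, h5, h6⟩ : ∃ θ : K, IsPrimitiveRoot θ 9 ∧ θ ^ 3 = 2 := by
    obtain ⟨γ, hγ⟩ := IsCyclic.exists_ofOrder_eq_natCard (α := G)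
    have h5 : IsPrimitiveRoot ((γ : Kˣ) : K) 9 := by
      rw [IsPrimitiveRoot.coe_units_iff, ← hG, ← hγ, ← Subgroup.orderOf_coe]
      exact IsPrimitiveRoot.orderOf _
    have h6 := h5.pow_ne_one_of_pos_of_lt (l := 3) (by norm_num) (by norm_num)
    have h8 := h5.pow_eq_one
    have h9 := h5.pow_of_coprime 2 (by norm_num)
    generalize ((γ : Kˣ) : K) = g at *
    have : (g ^ 3 - 1) * ((g ^ 3 - 2) * (g ^ 3 - 4)) = 0 := by
      linear_combination h8 + (-g ^ 6 + 2 * g ^ 3 - 1) * h7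
    rcases mul_eq_zero.mp ((mul_eq_zero.mp this).resolve_left (sub_ne_zero.mpr h6)) with h | h
    · exact ⟨g, h5, sub_eq_zero.mp h⟩
    · exact ⟨g ^ 2, h9, by linear_combination (g ^ 3 + 4) * h + 2 * h7⟩
  let f := ZMod.castHom (dvd_refl 7) K
  let φ : V → K := fun x => f x.1 + f x.2.1 * θ + f x.2.2 * θ ^ 2
  have h8 : ∀ x y, φ (fm x y) = φ x * φ y := fun x y => by
    simp only [φ, fm, map_add, map_mul, map_ofNat]
    linear_combination (-(f x.2.1 * f y.2.2 + f x.2.2 * f y.2.1) - f x.2.2 * f y.2.2 * θ) * h6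
  have h9 : ∀ x y, φ (x - y) = φ x - φ y := fun x y => by
    simp only [φ, Prod.fst_sub, Prod.snd_sub, map_sub]
    ring
  have h10 : ∀ n, φ (T n) = θ ^ n := fun n => by
    induction n with
    | zero => simp [φ, T]
    | succ n ih => rw [T, h8, ih, pow_succ]; simp [φ]
  have h11 : ∀ x y, φ x = φ y → x = y := fun x y hxy => by
    by_contra h12
    have := congrArg φ (fm_finv _ (sub_ne_zero.mpr h12))
    rw [h8, h9, hxy, h10] at this
    simp at this
  have h12 : ∀ w ∈ G, ∃ i : Fin 9, θ ^ (i : ℕ) = w := fun w hw => by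
    obtain ⟨i, hi, h13⟩ := h5.eq_pow_of_pow_eq_one (ξ := (w : K)) (by
      rw [← hG]
      simpa only [SubmonoidClass.coe_pow, Units.val_pow_eq_pow_val, OneMemClass.coe_one,
        Units.val_one] using
        congrArg (fun y : G => ((y : Kˣ) : K)) (pow_card_eq_one' (x := ⟨w, hw⟩)))
    exact ⟨⟨i, hi⟩, h13⟩
  obtain ⟨i, hi⟩ := h12 u hu
  obtain ⟨j, hj⟩ := h12 u' hu'
  obtain ⟨k, hk⟩ := h12 v hv
  obtain ⟨l, hl⟩ := h12 v' hv'
  have h13 : ∀ (w : Kˣ) (i : Fin 9), θ ^ (i : ℕ) = w → w ≠ 1 → i ≠ 0 := by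
    rintro w _ hw h rfl
    exact h (Units.ext (by simpa using hw.symm))
  have := key i j k l (h13 _ _ hi h1) (h13 _ _ hj h2) (h13 _ _ hk h3)
    (by rintro rfl; exact h4 (Units.ext (hi.symm.trans hj)))
    (h11 _ _ (by simp only [h8, h9, h10, hi, hj, hk, hl, pow_zero, h]))
  exact Units.ext (by rw [← hi, ← hk, this])

theorem field_blocks {K : Type} [Field K] [Fintype K] (hK : Fintype.card K = 343)
    (S G : Subgroup Kˣ) (hG : Nat.card G = 9) {B C : Set K} (hB : B ∈ blocks S G)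
    (hC : C ∈ blocks S G) {p q r : K} (hp : p ∈ B ∩ C) (hq : q ∈ B ∩ C) (hr : r ∈ B ∩ C)
    (h1 : p ≠ q) (h2 : p ≠ r) (h3 : q ≠ r) : B = C := by
  obtain ⟨s, -, a, rfl⟩ := hB
  obtain ⟨t, -, b, rfl⟩ := hC
  obtain ⟨⟨x, hx, e1⟩, y, hy, e2⟩ := hp
  obtain ⟨⟨x', hx', e3⟩, y', hy', e4⟩ := hq
  obtain ⟨⟨x'', hx'', e5⟩, y'', hy'', e6⟩ := hr
  simp only at e1 e2 e3 e4 e5 e6
  have h4 : ∀ {z z' w : Kˣ} {c m n : K}, z * w + c = m → z' * w + c = n → m ≠ n → z ≠ z' := by
    rintro z _ w c m n h h' h'' rfl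
    exact h'' (h.symm.trans h')
  have h5 := field_side hK G hG (G.div_mem hx' hx) (G.div_mem hx'' hx) (G.div_mem hy' hy)
    (G.div_mem hy'' hy) (div_ne_one.mpr (h4 e3 e1 h1.symm)) (div_ne_one.mpr (h4 e5 e1 h2.symm))
    (div_ne_one.mpr (h4 e4 e2 h1.symm)) (fun h => h4 e3 e5 h3 (div_left_injective h)) (by
      simp only [Units.val_div_eq_div_val]
      have := mul_ne_zero s.ne_zero t.ne_zero
      field_simp
      apply mul_left_cancel₀ this
      linear_combination (x' * s - x * s) * (e6 - e2) + (r - p) * (e3 - e1) -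
        (y' * t - y * t) * (e5 - e1) - (r - p) * (e4 - e2))
  have h6 : (x : K) * s = y * t := by
    have h7 : (x' : K) * y = y' * x := by
      exact_mod_cast congrArg Units.val (div_eq_div_iff_mul_eq_mul.mp h5)
    have h8 : (x' : K) - x ≠ 0 := sub_ne_zero.mpr fun h => h4 e3 e1 h1.symm (Units.ext h)
    apply mul_left_cancel₀ h8
    linear_combination x * (e3 - e1 - e4 + e2) - t * h7
  have h7 : a = b := by linear_combination e1 - e2 - h6
  subst h7
  ext z
  constructor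
  · rintro ⟨g, hg, rfl⟩
    refine ⟨g * y / x, G.div_mem (G.mul_mem hg hy) hx, ?_⟩
    simp only [Units.val_div_eq_div_val, Units.val_mul]
    field_simp
    linear_combination -g * h6
  · rintro ⟨g, hg, rfl⟩
    refine ⟨g * x / y, G.div_mem (G.mul_mem hg hx) hy, ?_⟩
    simp only [Units.val_div_eq_div_val, Units.val_mul]
    field_simp
    linear_combination g * h6

def mk (x : V) : N := x

def S : Subgroup Nˣ where
  carrier := {u | nrm (u : N) ^ 3 = 1}
  one_mem' := by decide +kernel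
  mul_mem' {a b} ha hb := show nrm (nm (a : N) (b : N)) ^ 3 = 1 by
    erw [nrm_nm, mul_pow, ha, hb, one_mul]
  inv_mem' {a} ha := by
    have := congrArg (fun x : N => nrm x ^ 3) a.mul_inv
    erw [nrm_nm, mul_pow, ha, one_mul] at this
    exact this

def g : Nˣ := Units.mk0 (mk (0, 3, 2)) (by decide +kernel)

theorem order_g : orderOf g = 9 :=
  orderOf_eq_prime_pow (p := 3) (n := 1) (by decide +kernel) (by decide +kernel)

theorem result : ∃ (N : Type) (_ : Nearfield N) (_ : Fintype N) (S G : Subgroup Nˣ),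
    Fintype.card N % 4 = 3 ∧ Nat.card S = (Fintype.card N - 1) / 2 ∧ G ≤ S ∧ 1 < Nat.card G ∧
    ∀ (K : Type) [Field K] [Fintype K] (S' G' : Subgroup Kˣ), Fintype.card K = Fintype.card N →
      Nat.card S' = (Fintype.card K - 1) / 2 → Nat.card G' = Nat.card G →
      ¬ Isomorphic (blocks S G) (blocks S' G') := by
  have h0 : Fintype.card N = 343 := by decide +kernel
  have h1 : Nat.card (Subgroup.zpowers g) = 9 := by rw [Nat.card_zpowers, order_g]
  refine ⟨N, inferInstance, inferInstance, S, Subgroup.zpowers g, by rw [h0], ?_,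
    Subgroup.zpowers_le.mpr (by decide +kernel : nrm (0, 3, 2) ^ 3 = 1), by rw [h1]; norm_num, ?_⟩
  · rw [Nat.card_congr (β := {x : N // nrm x ^ 3 = 1}) ⟨fun u => ⟨u.1, u.2⟩, fun x =>
      ⟨Units.mk0 x.1 (by rintro h; exact absurd (h ▸ x.2) (by decide +kernel)), x.2⟩,
      fun u => Subtype.ext (Units.ext rfl), fun x => rfl⟩, Nat.card_eq_fintype_card]
    decide +kernel
  rintro K _ _ S' G' h2 - h3 ⟨e, he⟩
  let s : Nˣ := Units.mk0 (mk (0, 3, 4)) (by decide +kernel)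
  have h4 : ∀ B ∈ blocks S (Subgroup.zpowers g), e '' B ∈ blocks S' G' := fun B hB =>
    he ▸ Set.mem_image_of_mem _ hB
  have h5 : ∀ i j : ℕ, (g ^ i : Nˣ) * ((1 : Nˣ) : N) + 0 = (g ^ j : Nˣ) * (s : N) + mk (1, 5, 0) →
      e ((g ^ j : Nˣ) * (s : N) + mk (1, 5, 0)) ∈
        e '' ((fun x : Nˣ => (x : N) * (1 : Nˣ) + 0) '' Subgroup.zpowers g) ∩
        e '' ((fun x : Nˣ => (x : N) * s + mk (1, 5, 0)) '' Subgroup.zpowers g) := fun i j h =>
    ⟨⟨_, ⟨_, Subgroup.npow_mem_zpowers g i, h⟩, rfl⟩, _, ⟨_, Subgroup.npow_mem_zpowers g j, rfl⟩,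
      rfl⟩
  have h6 := e.injective.image_injective (field_blocks (h2.trans h0) S' G' (h3.trans h1)
    (h4 _ ⟨1, S.one_mem, 0, rfl⟩)
    (h4 _ ⟨s, (by decide +kernel : nrm (0, 3, 4) ^ 3 = 1), mk (1, 5, 0), rfl⟩)
    (h5 8 0 (by decide +kernel)) (h5 2 1 (by decide +kernel)) (h5 4 2 (by decide +kernel))
    (e.injective.ne (by decide +kernel)) (e.injective.ne (by decide +kernel))
    (e.injective.ne (by decide +kernel)))
  obtain ⟨x, hx, h7⟩ := h6.ge ⟨_, Subgroup.npow_mem_zpowers g 5, rfl⟩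
  have h8 : (x : N) ^ 9 = 1 := by
    rw [← h1]
    simpa only [SubmonoidClass.coe_pow, Units.val_pow_eq_pow_val, OneMemClass.coe_one,
      Units.val_one] using congrArg (fun y : Subgroup.zpowers g => ((y : Nˣ) : N))
      (pow_card_eq_one' (x := ⟨x, hx⟩))
  simp only [Units.val_one, mul_one, add_zero] at h7
  rw [h7] at h8
  exact absurd h8 (by decide +kernel)

end Pool.Agent.Results.MP_fd05bb_co.Counterexample
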